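import Pool.Agent.Run7.h189.FD.B2

/-!
# Energies of the Farey fractions and the weak Mertens hypothesis

Let `f(x) = ∑_{k ≥ 1} c_k cos(2 π k x)` with `c_k ≥ 0`, `c_1 > 0` and `∑ c_k σ_{1/2}(k)² < ∞`, for instance the
kernel of the Sobolev norm `H^{-s}`, `s > 1` (`c_k = k^(-2 s)`; for integers `s` this is a Bernoulli polynomial),
the Poisson kernel or a theta function. The energy of the Farey sequence `F_n` is
`E_f(n) = (1 / |F_n|) ∑_{r, q ∈ F_n} f(r - q)`. The weak Mertens hypothesis holds iff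
`∑_{n ≤ N} E_f(n) ≪ log N`, iff this holds along a sequence of `N`; unconditionally the quotient
`∑_{n ≤ N} E_f(n) / log N` has a limit in `(0, ∞]`, which is `∞` if the hypothesis fails and
`(π² / 3) ∑_ρ (∑_k c_k |∑_{d ∣ k} d^(1 - ρ)|²) / |ρ ζ'(ρ)|²` if it holds.

Proof. `∑_{r ∈ F_n} cos(2 π k r) = ∑_{d ∣ k} d M(n / d)`; the mean square of this function of `n` is bounded by
Young's inequality, uniformly in `k`, and its limit is given by the theorem on `∑_m h(m) M(u / m)` of the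
starting files (`R754/WX`); the sum over `k` is by dominated convergence.
-/

set_option autoImplicit false

open Filter Topology MeasureTheory

namespace Pool.Agent.Results.MP_323ce2_nt.FareyEnergies

/-- the Mertens function -/
noncomputable def M (u : ℝ) : ℝ := ∑ n ∈ Finset.Icc 1 ⌊u⌋₊, ((ArithmeticFunction.moebius n : ℤ) : ℝ)

/-- the weak Mertens hypothesis -/
def WeakMertens : Prop := ∃ C : ℝ, ∀ x : ℝ, 2 ≤ x → ∫ u in (1:ℝ)..x, (M u / u) ^ 2 ≤ C * Real.log x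

/-- the nontrivial zeros of the Riemann zeta function -/
def NT : Set ℂ := {s : ℂ | riemannZeta s = 0 ∧ 0 < s.re ∧ s.re < 1}

/-- the Farey sequence of order `n`: the rationals in `(0, 1]` with denominator at most `n` -/
def farey (n : ℕ) : Finset ℚ :=
  ((Finset.Icc 1 n ×ˢ Finset.Icc 1 n).image (fun p : ℕ × ℕ => (p.1 : ℚ) / (p.2 : ℚ))).filter
    (fun q : ℚ => q ≤ 1)

/-- the kernel `∑_k c_k cos(2 π k x)` -/
noncomputable def kernel (c : ℕ → ℝ) (x : ℝ) : ℝ := ∑' k : ℕ, c k * Real.cos (2 * Real.pi * k * x)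

/-- the energy of the Farey sequence of order `n`, divided by the number of its points -/
noncomputable def energy (c : ℕ → ℝ) (n : ℕ) : ℝ :=
  (∑ r ∈ farey n, ∑ q ∈ farey n, kernel c ((r : ℝ) - (q : ℝ))) / ((farey n).card : ℝ)

/-- the weight `∑_k c_k |∑_{d ∣ k} d^(1 - ρ)|²` -/
noncomputable def weight (c : ℕ → ℝ) (ρ : ℂ) : ℝ := ∑' k : ℕ, c k * ‖∑ d ∈ k.divisors, (d : ℂ) ^ (1 - ρ)‖ ^ 2

theorem result (c : ℕ → ℝ) (h0 : c 0 = 0) (h1 : 0 < c 1) (hc : ∀ k, 0 ≤ c k)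
    (hs : Summable fun k : ℕ => c k * (∑ d ∈ k.divisors, √(d : ℝ)) ^ 2) :
    (WeakMertens ↔ ∃ C : ℝ, ∀ N : ℕ, 2 ≤ N → ∑ n ∈ Finset.Icc 1 N, energy c n ≤ C * Real.log N) ∧
    (WeakMertens ↔ ∃ C : ℝ, ∃ᶠ N : ℕ in atTop, ∑ n ∈ Finset.Icc 1 N, energy c n ≤ C * Real.log N) ∧
    (WeakMertens →
      Summable (fun ρ : NT => weight c ρ / ‖(ρ : ℂ) * deriv riemannZeta ρ‖ ^ 2) ∧
      0 < ∑' ρ : NT, weight c ρ / ‖(ρ : ℂ) * deriv riemannZeta ρ‖ ^ 2 ∧
      Tendsto (fun N : ℕ => (∑ n ∈ Finset.Icc 1 N, energy c n) / Real.log N) atTop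
        (𝓝 (Real.pi ^ 2 / 3 * ∑' ρ : NT, weight c ρ / ‖(ρ : ℂ) * deriv riemannZeta ρ‖ ^ 2))) ∧
    (¬ WeakMertens → Tendsto (fun N : ℕ => (∑ n ∈ Finset.Icc 1 N, energy c n) / Real.log N) atTop atTop) := by
  have h := Pool.Agent.Run7.h189.FD.energy_crit (c := c) ⟨h0, h1, hc, hs⟩
  unfold Pool.Agent.Run7.h189.FD.SCrit at h
  simp only [pow_one] at h
  exact h

end Pool.Agent.Results.MP_323ce2_nt.FareyEnergies
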