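import Pool.Agent.Run7.h189.FD.A4

/-!
# The Franel-Landau theorem for the weak Mertens hypothesis

For the Farey sequence `F_n` (the fractions in `(0, 1]` with denominator at most `n`) let
`F(n) = ∑_{r ∈ F_n} (r - rank(r) / |F_n|)²` be Franel's sum. Franel: the Riemann hypothesis holds iff
`F(n) ≪ n^(-1+ε)` for every `ε > 0`. Here: the weak Mertens hypothesis holds iff `∑_{n ≤ N} F(n) ≪ (log N)²`,
iff this holds along a sequence of `N`; unconditionally `∑_{n ≤ N} F(n) / (log N)²` has a limit in `(0, ∞]`,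
namely `π² / (72 ζ(3)) · ∑_ρ |ζ(1 + ρ)|² / |ρ ζ'(ρ)|²` under the weak Mertens hypothesis and `∞` otherwise.
-/

set_option autoImplicit false

open Filter Topology MeasureTheory

namespace Pool.Agent.Results.MP_323ce2_nt.FranelSum

/-- the Mertens function -/
noncomputable def M (u : ℝ) : ℝ := ∑ n ∈ Finset.Icc 1 ⌊u⌋₊, ((ArithmeticFunction.moebius n : ℤ) : ℝ)

/-- the weak Mertens hypothesis -/
def WeakMertens : Prop := ∃ C : ℝ, ∀ x : ℝ, 2 ≤ x → ∫ u in (1:ℝ)..x, (M u / u) ^ 2 ≤ C * Real.log x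

/-- the nontrivial zeros of the Riemann zeta function -/
def NT : Set ℂ := {s : ℂ | riemannZeta s = 0 ∧ 0 < s.re ∧ s.re < 1}

/-- the Farey sequence of order `n`: the rationals in `(0, 1]` with denominator at most `n` -/
def farey (n : ℕ) : Finset ℚ :=
  ((Finset.Icc 1 n ×ˢ Finset.Icc 1 n).image (fun p : ℕ × ℕ => (p.1 : ℚ) / (p.2 : ℚ))).filter
    (fun q : ℚ => q ≤ 1)

/-- the Franel sum of order `n`: the sum of the squares of the differences between the Farey fractions and the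
equally spaced points `k / |F_n|`, `k = 1, …, |F_n|` -/
noncomputable def franel (n : ℕ) : ℝ :=
  ∑ r ∈ farey n, ((r : ℝ) - (((farey n).filter (fun q => q ≤ r)).card : ℝ) / ((farey n).card : ℝ)) ^ 2

theorem result :
    (WeakMertens ↔ ∃ C : ℝ, ∀ N : ℕ, 2 ≤ N → ∑ n ∈ Finset.Icc 1 N, franel n ≤ C * Real.log N ^ 2) ∧
    (WeakMertens ↔ ∃ C : ℝ, ∃ᶠ N : ℕ in atTop, ∑ n ∈ Finset.Icc 1 N, franel n ≤ C * Real.log N ^ 2) ∧
    (WeakMertens →
      Summable (fun ρ : NT => ‖riemannZeta (1 + ρ)‖ ^ 2 / ‖(ρ : ℂ) * deriv riemannZeta ρ‖ ^ 2) ∧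
      0 < ∑' ρ : NT, ‖riemannZeta (1 + ρ)‖ ^ 2 / ‖(ρ : ℂ) * deriv riemannZeta ρ‖ ^ 2 ∧
      Tendsto (fun N : ℕ => (∑ n ∈ Finset.Icc 1 N, franel n) / Real.log N ^ 2) atTop
        (𝓝 (Real.pi ^ 2 / (72 * ∑' n : ℕ, 1 / (n : ℝ) ^ 3) *
          ∑' ρ : NT, ‖riemannZeta (1 + ρ)‖ ^ 2 / ‖(ρ : ℂ) * deriv riemannZeta ρ‖ ^ 2))) ∧
    (¬ WeakMertens → Tendsto (fun N : ℕ => (∑ n ∈ Finset.Icc 1 N, franel n) / Real.log N ^ 2) atTop atTop) :=
  Pool.Agent.Run7.h189.FD.franel_crit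

end Pool.Agent.Results.MP_323ce2_nt.FranelSum
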