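import Pool.Agent.Run7.h684.WS.Res

/-!
# The weak Mertens hypothesis at the primes and at the powers `k^A`

The mean square of `M(u)` over the primes, over the squares, the cubes, ..., the powers `k^A` (`A ≥ 1` real), and over every
weighted sequence of points with the right mass in the intervals `[x, x + x^(1-η)]`, `η > 0`, obeys the same law as
the integral `I(x)` of Q1; the limits are the same.
-/

set_option autoImplicit false

open Filter Topology

namespace Pool.Agent.Results.MP_323ce2_nt.PrimesAndPowers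

/-- The Mertens function. -/
noncomputable def M (u : ℝ) : ℝ := ∑ n ∈ Finset.Icc 1 ⌊u⌋₊, ((ArithmeticFunction.moebius n : ℤ) : ℝ)

/-- The weak Mertens hypothesis, the assertion of Q1: `∫_1^x (M(u)/u)² du ≤ C log x` for `x ≥ 2`. -/
def WeakMertens : Prop := ∃ C : ℝ, ∀ x : ℝ, 2 ≤ x → ∫ u in (1 : ℝ)..x, (M u / u) ^ 2 ≤ C * Real.log x

/-- The nontrivial zeros of the Riemann zeta function. -/
def NT : Set ℂ := {s : ℂ | riemannZeta s = 0 ∧ 0 < s.re ∧ s.re < 1}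

/-- `∑_ρ 1 / |ρ ζ'(ρ)|²`. -/
noncomputable def zeroSum : ℝ := ∑' ρ : NT, 1 / ‖(ρ : ℂ) * deriv riemannZeta ρ‖ ^ 2

/-- The sum of `M(k^A)² / k^(A+1)` over the integers `1 ≤ k ≤ K`. -/
noncomputable def powerSum (A : ℝ) (K : ℕ) : ℝ :=
  ∑ k ∈ Finset.Icc 1 K, M ((k : ℝ) ^ A) ^ 2 / (k : ℝ) ^ (A + 1)

/-- The sum of `(M(p)/p)² log p` over the primes `p ≤ N`. -/
noncomputable def primeSum (N : ℕ) : ℝ :=
  ∑ p ∈ (Finset.Icc 1 N).filter Nat.Prime, Real.log p * (M p / p) ^ 2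

/-- `P(K) / log K` tends to `∑_ρ 1 / |ρ ζ'(ρ)|²` if the weak Mertens hypothesis holds and to infinity if it does not;
the weak Mertens hypothesis is equivalent to `P(K) ≤ C log K` for `K ≥ 2`. -/
def SameLaw (P : ℕ → ℝ) : Prop :=
  (WeakMertens → Tendsto (fun K : ℕ => P K / Real.log K) atTop (𝓝 zeroSum)) ∧
  (¬ WeakMertens → Tendsto (fun K : ℕ => P K / Real.log K) atTop atTop) ∧
  (WeakMertens ↔ ∃ C : ℝ, ∀ K : ℕ, 2 ≤ K → P K ≤ C * Real.log K)

/-- The first index `n` with `x ≤ ξ n`. -/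
noncomputable def first (ξ : ℕ → ℝ) (x : ℝ) : ℕ := sInf {n : ℕ | x ≤ ξ n}

/-- The sum of the weights `g k` over the `k` with `x ≤ ξ k < y` (for a nondecreasing sequence `ξ` that tends to
infinity). -/
noncomputable def mass (ξ g : ℕ → ℝ) (x y : ℝ) : ℝ := ∑ k ∈ Finset.Ico (first ξ x) (first ξ y), g k

/-- The sum of `g k (M(ξ k) / ξ k)²` over the `k` with `ξ k < x`. -/
noncomputable def meanSquare (ξ g : ℕ → ℝ) (x : ℝ) : ℝ :=
  ∑ k ∈ Finset.range (first ξ x), g k * (M (ξ k) / ξ k) ^ 2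

/-- `ξ` is nondecreasing and tends to infinity, `g ≥ 0`, and for all large `x` the weights of the points in
`[x, x + h)` have a sum between `c₁ h` and `c₂ h` for all `h` with `x^(1-η) ≤ h ≤ x`. -/
def Masses (ξ g : ℕ → ℝ) (η c₁ c₂ : ℝ) : Prop :=
  Monotone ξ ∧ Tendsto ξ atTop atTop ∧ (∀ k, 0 ≤ g k) ∧
    ∀ᶠ x : ℝ in atTop, ∀ h : ℝ, x ^ (1 - η) ≤ h → h ≤ x → c₁ * h ≤ mass ξ g x (x + h) ∧ mass ξ g x (x + h) ≤ c₂ * h

lemma wm_iff : WeakMertens ↔ Pool.Agent.W120.WM.ZC := by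
  obtain ⟨K, -, -, h⟩ := Pool.Agent.W120.WM.final2 Pool.Agent.W120.WM.sharpT
  exact h.out 0 2

lemma sameLaw_of {P : ℕ → ℝ}
    (h1 : Pool.Agent.W120.WM.ZC → Tendsto (fun K : ℕ => P K / Real.log K) atTop (𝓝 Run7.h684.WS.SZ))
    (h2 : ¬ Pool.Agent.W120.WM.ZC → Tendsto (fun K : ℕ => P K / Real.log K) atTop atTop) : SameLaw P :=
  ⟨fun h => h1 (wm_iff.1 h), fun h => h2 (fun h3 => h (wm_iff.2 h3)),
    wm_iff.trans (Run7.h684.WS.bound_iff h1 h2)⟩

/-- **Main theorem.** (1) For every real `A ≥ 1`, `(1 / log K) ∑_{k ≤ K} M(k^A)² / k^(A+1)` tends to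
`∑_ρ 1 / |ρ ζ'(ρ)|²` if the weak Mertens hypothesis (WM) holds and to infinity if not, and WM holds if and only if
`∑_{k ≤ K} M(k^A)² / k^(A+1) ≪ log K`. (2) The same is true for `∑_{p ≤ N} (M(p)/p)² log p` and `log N`. (3) Let `(ξ k)`
be points with weights `(g k)` whose masses in `[x, x + h)` are between `c₁ h` and `c₂ h`, `c₁ > 0`, for
`x^(1-η) ≤ h ≤ x`. If WM holds, then for all `ε > 0` and all large `x` the weighted mean square of `M(u)/u` over the
points below `x` is between `(c₁ Z - ε) log x` and `(c₂ Z + ε) log x`, `Z = ∑_ρ 1 / |ρ ζ'(ρ)|²`; if WM does not hold,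
its quotient by `log x` tends to infinity. -/
theorem result :
    (∀ A : ℝ, 1 ≤ A → SameLaw (powerSum A)) ∧
    SameLaw primeSum ∧
    ∀ (ξ g : ℕ → ℝ) (η c₁ c₂ : ℝ), 0 < η → η ≤ 1 → 0 < c₁ → Masses ξ g η c₁ c₂ →
      (WeakMertens → ∀ ε : ℝ, 0 < ε → ∀ᶠ x : ℝ in atTop,
        (c₁ * zeroSum - ε) * Real.log x ≤ meanSquare ξ g x ∧
          meanSquare ξ g x ≤ (c₂ * zeroSum + ε) * Real.log x) ∧
      (¬ WeakMertens → Tendsto (fun x : ℝ => meanSquare ξ g x / Real.log x) atTop atTop) := by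
  refine ⟨fun A hA => ?_, ?_, ?_⟩
  · have hA0 : 0 < A := by linarith
    have h := Run7.h684.WS.to_nat (T := Run7.h684.WS.TT Run7.h684.Smp.mobC (Run7.h684.WS.xiA A) (Run7.h684.WS.gA A))
      (P := powerSum A) hA0 (Eventually.of_forall fun K => Run7.h684.WS.pow_sum hA K)
    exact sameLaw_of (fun hZ => h.1 _ (Run7.h684.WS.pow_lim hA hZ)) (fun hZ => h.2 (Run7.h684.WS.pow_inf hA hZ))
  · have h := Run7.h684.WS.to_nat (T := Run7.h684.WS.TT Run7.h684.Smp.mobC Run7.h684.WS.xiN Run7.h684.WS.gP)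
      (P := primeSum) one_pos (Eventually.of_forall fun K => Run7.h684.WS.prime_sum K)
    exact sameLaw_of (fun hZ => h.1 _ (Run7.h684.WS.prime_lim hZ)) (fun hZ => h.2 (Run7.h684.WS.prime_inf hZ))
  · rintro ξ g η c₁ c₂ hη hη1 hc ⟨hm, ht, hg, hmass⟩
    have hs : Run7.h684.WS.Seq ξ g := ⟨hm, ht, hg⟩
    have hlow : Run7.h684.WS.MassLow ξ g c₁ η := by
      filter_upwards [hmass] with x hx h h1 h2 using (hx h h1 h2).1
    have hup : Run7.h684.WS.MassUp ξ g c₂ η := by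
      filter_upwards [hmass] with x hx h h1 h2 using (hx h h1 h2).2
    have hc2 : 0 ≤ c₂ := by
      obtain ⟨x, hx, hx1⟩ := (hmass.and (eventually_ge_atTop (1 : ℝ))).exists
      have h1 : x ^ (1 - η) ≤ x := by
        calc x ^ (1 - η) ≤ x ^ (1 : ℝ) := Real.rpow_le_rpow_of_exponent_le hx1 (by linarith)
          _ = x := Real.rpow_one x
      obtain ⟨g1, g2⟩ := hx x h1 le_rfl
      have hx0 : 0 < x := by linarith
      have g3 : 0 < c₂ * x := (mul_pos hc hx0).trans_le (g1.trans g2)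
      by_contra hcon
      have g4 := mul_neg_of_neg_of_pos (not_le.1 hcon) hx0
      linarith
    have heq : ∀ x : ℝ, 1 ≤ x → meanSquare ξ g x = Run7.h684.WS.TT Run7.h684.Smp.mobC ξ g x := fun x hx =>
      (Run7.h684.WS.TT_eq hs hx).symm
    refine ⟨fun hW ε hε => ?_, fun hW => ?_⟩
    · filter_upwards [Run7.h684.WS.up_ZC (wm_iff.1 hW) hs hη hη1 hc2 hup hε,
        Run7.h684.WS.low_ZC (wm_iff.1 hW) hs hη hη1 hc.le hlow hε, eventually_ge_atTop (1 : ℝ)] with x g1 g2 g3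
      rw [heq x g3]
      exact ⟨g2, g1⟩
    · have h1 := Run7.h684.WS.inf_of_ev (fun B => Run7.h684.WS.inf_all (fun h3 => hW (wm_iff.2 h3)) hs hη hη1 hc hlow B)
      refine h1.congr' ?_
      filter_upwards [eventually_ge_atTop (1 : ℝ)] with x hx
      rw [heq x hx]

end Pool.Agent.Results.MP_323ce2_nt.PrimesAndPowers
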