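import Pool.Agent.Run7.h290.TM.E

set_option autoImplicit false

/-!
# MP_323ce2_nt: the weak Mertens hypothesis for the twists of the Moebius function by `n^{-it}`

Let `M_t(x) = ∑_{n ≤ x} μ(n) n^{-it}` and `mean t V = (1/V) ∫_0^V |M_t(e^v)|² e^{-v} dv`, which is `(1 / log x) ∫_1^x |M_t(u)/u|² du`
with `x = e^V`. Unconditionally:

* (1) the weak Mertens hypothesis of the page (`t = 0`) holds if and only if for one real `t`, equivalently for all real `t`, these means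
  are bounded, and it holds already if for one `t` they are bounded for arbitrarily large `V`;
* (2) it implies that for every real `t` the means converge to `∑_ρ 1 / |(ρ - it) ζ'(ρ)|²`;
* (3) the bound of Gonek and Hejhal type `∑_{|γ| ≤ T} 1/|ζ'(ρ)|² ≤ C T` (with all zeros on the critical line and simple), which is
  Ng's hypothesis `J_{-1}(T) ≪ T`, holds if and only if the limsups of the means are bounded in the mean over the twists, that is the
  integral of `limsup_V mean t V` over `|t| ≤ T` is at most `C T` for all `T ≥ 1`.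
-/

open Filter Topology MeasureTheory

namespace Pool.Agent.Results.MP_323ce2_nt.TwistedMertens

/-- the Mertens function -/
noncomputable def M (u : ℝ) : ℝ := ∑ n ∈ Finset.Icc 1 ⌊u⌋₊, ((ArithmeticFunction.moebius n : ℤ) : ℝ)

/-- the weak Mertens hypothesis -/
def WeakMertens : Prop := ∃ C : ℝ, ∀ x : ℝ, 2 ≤ x → ∫ u in (1:ℝ)..x, (M u / u) ^ 2 ≤ C * Real.log x

/-- `M_t(x) = ∑_{n ≤ x} μ(n) n^{-it}` -/
noncomputable def Mt (t x : ℝ) : ℂ :=
  ∑ n ∈ Finset.Icc 1 ⌊x⌋₊, ((ArithmeticFunction.moebius n : ℤ) : ℂ) * Complex.exp (-(Complex.I * t * Real.log n))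

/-- `(1/V) ∫_0^V |M_t(e^v)|² e^{-v} dv` -/
noncomputable def mean (t V : ℝ) : ℝ := (∫ v in (0:ℝ)..V, ‖Mt t (Real.exp v)‖ ^ 2 * Real.exp (-v)) / V

/-- the nontrivial zeros of the Riemann zeta function -/
def NT : Set ℂ := {s : ℂ | riemannZeta s = 0 ∧ 0 < s.re ∧ s.re < 1}

/-- all nontrivial zeros are on the critical line and simple, and `∑_{|γ| ≤ T} 1/|ζ'(ρ)|² ≤ C T` for all `T ≥ 1` -/
def GonekBound : Prop := (∀ ρ ∈ NT, ρ.re = 1 / 2 ∧ deriv riemannZeta ρ ≠ 0) ∧ ∃ C : ℝ, ∀ T : ℝ, 1 ≤ T →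
  ∀ Z : Finset ℂ, (∀ ρ ∈ Z, ρ ∈ NT ∧ |ρ.im| ≤ T) → ∑ ρ ∈ Z, 1 / ‖deriv riemannZeta ρ‖ ^ 2 ≤ C * T

open Pool.Agent.Run7.h290.TM in
lemma mean_eq (t : ℝ) {V : ℝ} (hV : 0 ≤ V) : mean t V = (∫ v in Set.Ioc 0 V, ‖As t f0 v‖ ^ 2) / V := by
  unfold mean
  rw [intervalIntegral.integral_of_le hV]
  congr 1
  refine setIntegral_congr_fun measurableSet_Ioc fun v hv => ?_
  have h1 : As t f0 v = ((Real.exp (-(v / 2)) : ℝ) : ℂ) * Mt t (Real.exp v) := by
    unfold f0
    rw [← abel _ t hv.1.le]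
    unfold Ac Mt ph
    simp only [Complex.ofReal_intCast]
  rw [h1, norm_mul, Complex.norm_real, Real.norm_of_nonneg (Real.exp_pos _).le, mul_pow, ← Real.exp_nat_mul, mul_comm]
  congr 2
  push_cast
  ring

lemma WM_ZC : WeakMertens ↔ Pool.Agent.W120.WM.ZC := Pool.Agent.TH223.AP.WM_iff_ZC

lemma ZC_of_mean {t C : ℝ} (h : ∃ᶠ V : ℝ in atTop, mean t V ≤ C) : Pool.Agent.W120.WM.ZC := by
  refine Pool.Agent.Run7.h290.TM.ZC_of (t := t) (C := C) ?_
  refine (h.and_eventually (eventually_ge_atTop (0:ℝ))).mono fun V hV => ?_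
  rw [← mean_eq t hV.2]
  exact hV.1

lemma mean_lim (hZ : Pool.Agent.W120.WM.ZC) (t : ℝ) :
    Tendsto (mean t) atTop (𝓝 (∑' ρ : NT, 1 / ‖((ρ : ℂ) - Complex.I * t) * deriv riemannZeta ρ‖ ^ 2)) := by
  refine (Pool.Agent.Run7.h290.TM.lim hZ t).congr' ?_
  filter_upwards [eventually_ge_atTop (0:ℝ)] with V hV
  exact (mean_eq t hV).symm

lemma limsup_eq (hZ : Pool.Agent.W120.WM.ZC) (t : ℝ) : limsup (fun V : ℝ => ENNReal.ofReal (mean t V)) atTop =
    ∑' ρ : NT, ENNReal.ofReal (1 / ‖((ρ : ℂ) - Complex.I * t) * deriv riemannZeta ρ‖ ^ 2) := by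
  rw [(ENNReal.tendsto_ofReal (mean_lim hZ t)).limsup_eq]
  exact ENNReal.ofReal_tsum_of_nonneg (fun _ => by positivity) (Pool.Agent.Run7.h290.TM.sm hZ)

lemma b_meas (ρ : ℂ) : Measurable fun t : ℝ => ENNReal.ofReal (1 / ‖(ρ - Complex.I * t) * deriv riemannZeta ρ‖ ^ 2) := by
  fun_prop

lemma b_split (ρ : ℂ) (t : ℝ) : ENNReal.ofReal (1 / ‖(ρ - Complex.I * t) * deriv riemannZeta ρ‖ ^ 2) =
    ENNReal.ofReal (1 / ‖deriv riemannZeta ρ‖ ^ 2) * ENNReal.ofReal (1 / ‖ρ - Complex.I * t‖ ^ 2) := by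
  rw [← ENNReal.ofReal_mul (by positivity), norm_mul, mul_pow]
  congr 1
  rw [one_div_mul_one_div, mul_comm]

lemma b_int (ρ : ℂ) (T : ℝ) : ∫⁻ t in Set.Icc (-T) T, ENNReal.ofReal (1 / ‖(ρ - Complex.I * t) * deriv riemannZeta ρ‖ ^ 2) =
    ENNReal.ofReal (1 / ‖deriv riemannZeta ρ‖ ^ 2) * ∫⁻ t in Set.Icc (-T) T, ENNReal.ofReal (1 / ‖ρ - Complex.I * t‖ ^ 2) := by
  simp_rw [b_split]
  rw [lintegral_const_mul' _ _ ENNReal.ofReal_ne_top]

theorem result :
    (∀ t : ℝ, WeakMertens ↔ ∃ C : ℝ, ∀ᶠ V : ℝ in atTop, mean t V ≤ C) ∧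
    (∀ t : ℝ, (∃ C : ℝ, ∃ᶠ V : ℝ in atTop, mean t V ≤ C) → WeakMertens) ∧
    (WeakMertens → ∀ t : ℝ,
      Tendsto (mean t) atTop (𝓝 (∑' ρ : NT, 1 / ‖((ρ : ℂ) - Complex.I * t) * deriv riemannZeta ρ‖ ^ 2))) ∧
    (GonekBound ↔ ∃ C : ℝ, ∀ T : ℝ, 1 ≤ T →
      ∫⁻ t in Set.Icc (-T) T, limsup (fun V : ℝ => ENNReal.ofReal (mean t V)) atTop ≤ ENNReal.ofReal (C * T)) := by
  refine ⟨fun t => ⟨fun h => ?_, fun h => ?_⟩, fun t h => ?_, fun h t => mean_lim (WM_ZC.1 h) t, ?_⟩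
  · have h1 := mean_lim (WM_ZC.1 h) t
    refine ⟨(∑' ρ : NT, 1 / ‖((ρ : ℂ) - Complex.I * t) * deriv riemannZeta ρ‖ ^ 2) + 1, ?_⟩
    filter_upwards [h1.eventually (gt_mem_nhds (lt_add_one _))] with V hV
    exact hV.le
  · obtain ⟨C, hC⟩ := h
    exact WM_ZC.2 (ZC_of_mean hC.frequently)
  · obtain ⟨C, hC⟩ := h
    exact WM_ZC.2 (ZC_of_mean hC)
  · constructor
    · rintro ⟨hR, C, hJ⟩
      have hZ : Pool.Agent.W120.WM.ZC := Pool.Agent.Run7.h290.TM.ZC_of_JB hR hJ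
      refine ⟨256 * C, fun T hT => ?_⟩
      simp_rw [limsup_eq hZ]
      have hcount : Countable NT := by
        have h := hZ.2.countable_support
        have huniv : Function.support (fun ρ : Pool.Agent.W120.WM.NT => 1 / ‖(ρ : ℂ) * deriv riemannZeta ρ‖ ^ 2) = Set.univ := by
          refine Set.eq_univ_of_forall fun ρ => ?_
          rw [Function.mem_support]
          have h1 : (ρ : ℂ) ≠ 0 := by
            intro h0
            have h2 := (hZ.1 ρ ρ.2).1
            rw [h0] at h2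
            norm_num at h2
          have h3 := (hZ.1 ρ ρ.2).2
          have h4 : 0 < ‖(ρ : ℂ) * deriv riemannZeta ρ‖ := norm_pos_iff.2 (mul_ne_zero h1 h3)
          positivity
        rw [huniv] at h
        exact Set.countable_univ_iff.1 h
      rw [lintegral_tsum fun ρ : NT => (b_meas (ρ : ℂ)).aemeasurable]
      rw [ENNReal.tsum_eq_iSup_sum]
      refine iSup_le fun u => ?_
      obtain ⟨Z, hZdef⟩ : ∃ Z : Finset ℂ, Z = u.map (Function.Embedding.subtype _) := ⟨_, rfl⟩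
      have hZN : ∀ ρ ∈ Z, ρ ∈ NT := by
        intro ρ hρ
        rw [hZdef, Finset.mem_map] at hρ
        obtain ⟨ρ', -, rfl⟩ := hρ
        exact ρ'.2
      have h2 : ∑ ρ ∈ u, ∫⁻ t in Set.Icc (-T) T, ENNReal.ofReal (1 / ‖((ρ : ℂ) - Complex.I * t) * deriv riemannZeta ρ‖ ^ 2) =
          ∑ ρ ∈ Z, ∫⁻ t in Set.Icc (-T) T, ENNReal.ofReal (1 / ‖(ρ - Complex.I * t) * deriv riemannZeta ρ‖ ^ 2) := by
        rw [hZdef, Finset.sum_map]
        rfl
      rw [h2]
      have h3 : ∀ ρ ∈ Z, ∫⁻ t in Set.Icc (-T) T, ENNReal.ofReal (1 / ‖(ρ - Complex.I * t) * deriv riemannZeta ρ‖ ^ 2) ≤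
          ENNReal.ofReal (16 * (Pool.Agent.Run7.h290.TM.wt T ρ * (1 / ‖deriv riemannZeta ρ‖ ^ 2))) := by
        intro ρ hρ
        rw [b_int]
        refine (mul_le_mul_right (Pool.Agent.Run7.h290.TM.high (hR ρ (hZN ρ hρ)).1 hT) _).trans (le_of_eq ?_)
        rw [← ENNReal.ofReal_mul (by positivity)]
        congr 1
        ring
      refine (Finset.sum_le_sum h3).trans ?_
      rw [← ENNReal.ofReal_sum_of_nonneg fun ρ _ => mul_nonneg (by norm_num) (mul_nonneg (Pool.Agent.Run7.h290.TM.wt_nn T ρ) (by positivity))]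
      refine ENNReal.ofReal_le_ofReal ?_
      rw [← Finset.mul_sum]
      have h4 := Pool.Agent.Run7.h290.TM.dyadic hJ hT Z hZN
      linarith
    · rintro ⟨C, hC⟩
      -- one finite value
      have hfin : ∃ t : ℝ, limsup (fun V : ℝ => ENNReal.ofReal (mean t V)) atTop < ⊤ := by
        by_contra hcon
        push Not at hcon
        have h1 := hC 1 le_rfl
        have h2 : ∫⁻ t in Set.Icc (-(1:ℝ)) 1, limsup (fun V : ℝ => ENNReal.ofReal (mean t V)) atTop = ⊤ := by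
          have h3 : ∀ t : ℝ, limsup (fun V : ℝ => ENNReal.ofReal (mean t V)) atTop = ⊤ := fun t => top_le_iff.1 (hcon t)
          simp_rw [h3]
          rw [lintegral_const, Measure.restrict_apply_univ, Real.volume_Icc]
          refine ENNReal.top_mul ?_
          rw [Ne, ENNReal.ofReal_eq_zero]
          norm_num
        rw [h2] at h1
        exact absurd h1 (not_le.2 ENNReal.ofReal_lt_top)
      obtain ⟨t0, ht0⟩ := hfin
      obtain ⟨B, hB1, hB2⟩ := exists_between ht0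
      have hev := eventually_lt_of_limsup_lt hB1
      have hZ : Pool.Agent.W120.WM.ZC := by
        refine ZC_of_mean (t := t0) (C := B.toReal) (Eventually.frequently ?_)
        filter_upwards [hev] with V hV
        exact (ENNReal.ofReal_le_iff_le_toReal hB2.ne).1 hV.le
      refine ⟨hZ.1, 5 / 4 * max C 0, fun T hT Z hZN => ?_⟩
      have h1 := hC T hT
      simp_rw [limsup_eq hZ] at h1
      have h2 : ∑ ρ ∈ Z, ENNReal.ofReal (1 / ‖deriv riemannZeta ρ‖ ^ 2 * (4 / 5)) ≤ ENNReal.ofReal (C * T) := by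
        refine le_trans ?_ h1
        have h3 : ∀ t : ℝ, ∑ ρ ∈ Z, ENNReal.ofReal (1 / ‖(ρ - Complex.I * t) * deriv riemannZeta ρ‖ ^ 2) ≤
            ∑' ρ : NT, ENNReal.ofReal (1 / ‖((ρ : ℂ) - Complex.I * t) * deriv riemannZeta ρ‖ ^ 2) := by
          intro t
          rw [← Finset.sum_attach]
          have hinj : Function.Injective fun ρ : {x // x ∈ Z} => (⟨ρ.1, (hZN ρ.1 ρ.2).1⟩ : NT) := by
            intro x y hxy
            have := congrArg Subtype.val hxy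
            exact Subtype.ext this
          have h4 := ENNReal.sum_le_tsum (f := fun ρ : NT => ENNReal.ofReal (1 / ‖((ρ : ℂ) - Complex.I * t) * deriv riemannZeta ρ‖ ^ 2))
            (Z.attach.map ⟨fun ρ : {x // x ∈ Z} => (⟨ρ.1, (hZN ρ.1 ρ.2).1⟩ : NT), hinj⟩)
          rw [Finset.sum_map] at h4
          exact h4
        refine le_trans ?_ (lintegral_mono fun t => h3 t)
        rw [lintegral_finsetSum _ fun ρ _ => b_meas ρ]
        refine Finset.sum_le_sum fun ρ hρ => ?_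
        rw [b_int, ENNReal.ofReal_mul (by positivity)]
        exact mul_le_mul_right (Pool.Agent.Run7.h290.TM.low (hZ.1 ρ (hZN ρ hρ).1).1 hT (hZN ρ hρ).2) _
      rw [← ENNReal.ofReal_sum_of_nonneg fun ρ _ => by positivity, ← Finset.sum_mul] at h2
      have h5 : (∑ ρ ∈ Z, 1 / ‖deriv riemannZeta ρ‖ ^ 2) * (4 / 5) ≤ max C 0 * T := by
        have h6 : ENNReal.ofReal (C * T) ≤ ENNReal.ofReal (max C 0 * T) :=
          ENNReal.ofReal_le_ofReal (mul_le_mul_of_nonneg_right (le_max_left _ _) (by linarith))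
        exact (ENNReal.ofReal_le_ofReal_iff (mul_nonneg (le_max_right _ _) (by linarith))).1 (h2.trans h6)
      linarith

end Pool.Agent.Results.MP_323ce2_nt.TwistedMertens
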